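import Pool.Agent.Q20.OddComm.Main

/-!
Every odd number at least three is both the clique number and the chromatic number of the
commuting graph of some finite nonabelian group.
-/

namespace Pool.Agent.Results.MP_dcd76c_al.EveryOddNumber

open Q20.OddComm

/-- **Positive answer to Q1 and Q2, by one and the same group.**  For every positive integer `n`
there is a finite nonabelian group `G` whose commuting graph has clique number `2 n + 1` and
chromatic number `2 n + 1`. -/
theorem result (n : ℕ) (hn : 1 ≤ n) :
    ∃ (G : Type) (_ : Group G) (_ : Finite G), (∃ a b : G, a * b ≠ b * a) ∧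
      (commutingGraph G).cliqueNum = 2 * n + 1 ∧
      (commutingGraph G).chromaticNumber = ((2 * n + 1 : ℕ) : ℕ∞) :=
  main n hn

end Pool.Agent.Results.MP_dcd76c_al.EveryOddNumber
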